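import Mathlib

/-!
# The Randić index and the independence number of `K_{2,m}`

For the complete bipartite graph `K_{2,m}` with `n = m + 2` vertices the Randić index is
`√(2 (n - 2))` and the independence number is at least `n - 2`. For `n ≥ 11` the sum is larger than
`n - 1 + √(n - 1)`.
-/

set_option autoImplicit false

namespace Pool.Agent.Results.MP_e31007_co.CompleteBipartite

open Finset

/-- The Randić index: the sum of `1 / √(d_u d_v)` over the edges `uv`. -/
noncomputable def randic {V : Type} [Fintype V] (G : SimpleGraph V) [DecidableRel G.Adj] : ℝ :=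
  ∑ e ∈ G.edgeFinset, Sym2.lift ⟨fun u v => 1 / Real.sqrt ((G.degree u : ℝ) * G.degree v),
    fun u v => by simp only [mul_comm]⟩ e

/-- The complete bipartite graph `K_{2,m}`. -/
abbrev K (m : ℕ) : SimpleGraph (Fin 2 ⊕ Fin m) := completeBipartiteGraph (Fin 2) (Fin m)

instance (m : ℕ) : DecidableRel (K m).Adj := by
  intro u v
  rcases u with a | a <;> rcases v with b | b
  · exact isFalse (by simp)
  · exact isTrue (by simp)
  · exact isTrue (by simp)
  · exact isFalse (by simp)

theorem degree_inl (m : ℕ) (a : Fin 2) : (K m).degree (Sum.inl a) = m := by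
  rw [← SimpleGraph.card_neighborFinset_eq_degree]
  have : (K m).neighborFinset (Sum.inl a) = univ.map Function.Embedding.inr := by
    ext v
    rcases v with b | b <;> simp
  rw [this, card_map, card_univ, Fintype.card_fin]

theorem degree_inr (m : ℕ) (b : Fin m) : (K m).degree (Sum.inr b) = 2 := by
  rw [← SimpleGraph.card_neighborFinset_eq_degree]
  have : (K m).neighborFinset (Sum.inr b) = univ.map Function.Embedding.inl := by
    ext v
    rcases v with b | b <;> simp
  rw [this, card_map, card_univ, Fintype.card_fin]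

theorem card_edges (m : ℕ) : #(K m).edgeFinset = 2 * m := by
  have h := (K m).sum_degrees_eq_twice_card_edges
  rw [Fintype.sum_sum_type] at h
  simp only [degree_inl, degree_inr, sum_const, card_univ, Fintype.card_fin, smul_eq_mul] at h
  omega

theorem randic_eq (m : ℕ) : randic (K m) = 2 * m / Real.sqrt (2 * m) := by
  have h : ∀ e ∈ (K m).edgeFinset, Sym2.lift
      ⟨fun u v => 1 / Real.sqrt (((K m).degree u : ℝ) * (K m).degree v),
        fun u v => by simp only [mul_comm]⟩ e = 1 / Real.sqrt (2 * m) := by
    intro e he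
    induction e using Sym2.ind with
    | _ u v =>
      rw [SimpleGraph.mem_edgeFinset, SimpleGraph.mem_edgeSet] at he
      show 1 / Real.sqrt (((K m).degree u : ℝ) * (K m).degree v) = _
      rcases u with a | a <;> rcases v with b | b
      · simp at he
      · rw [degree_inl, degree_inr, mul_comm]
        norm_num
      · rw [degree_inl, degree_inr]
        norm_num
      · simp at he
  rw [randic, Finset.sum_congr rfl h, sum_const, card_edges, nsmul_eq_mul]
  push_cast
  ring

theorem indepNum_ge (m : ℕ) : m ≤ (K m).indepNum := by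
  have h : (K m).IsIndepSet ((univ : Finset (Fin m)).map
      (Function.Embedding.inr : Fin m ↪ Fin 2 ⊕ Fin m) : Finset (Fin 2 ⊕ Fin m)) := by
    intro u hu v hv _
    rw [Finset.mem_coe, mem_map] at hu hv
    obtain ⟨a, _, rfl⟩ := hu
    obtain ⟨b, _, rfl⟩ := hv
    simp
  have := h.card_le_indepNum
  rwa [card_map, card_univ, Fintype.card_fin] at this

theorem connected {m : ℕ} (hm : 0 < m) : (K m).Connected := by
  have h0 : ∀ v, (K m).Reachable (Sum.inr ⟨0, hm⟩) v := by
    rintro (a | b)
    · exact SimpleGraph.Adj.reachable (by simp)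
    · exact (SimpleGraph.Adj.reachable (v := Sum.inl 0) (by simp)).trans
        (SimpleGraph.Adj.reachable (by simp))
  exact { preconnected := fun u v => (h0 u).symm.trans (h0 v), nonempty := ⟨Sum.inl 0⟩ }

/-- For every `n ≥ 11` there is a connected graph on `n` vertices for which the sum of the Randić
index and the independence number is larger than `n - 1 + √(n - 1)`. -/
theorem result (n : ℕ) (hn : 11 ≤ n) : ∃ (V : Type) (_ : Fintype V) (G : SimpleGraph V)
    (_ : DecidableRel G.Adj), Fintype.card V = n ∧ G.Connected ∧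
      (n : ℝ) - 1 + Real.sqrt ((n : ℝ) - 1) < randic G + (G.indepNum : ℝ) := by
  obtain ⟨m, rfl⟩ : ∃ m, n = m + 2 := ⟨n - 2, by omega⟩
  have hm : 9 ≤ m := by omega
  refine ⟨Fin 2 ⊕ Fin m, inferInstance, K m, inferInstance, ?_, connected (by omega), ?_⟩
  · rw [Fintype.card_sum, Fintype.card_fin, Fintype.card_fin]
    ring
  · have h1 : (m : ℝ) ≤ ((K m).indepNum : ℝ) := by exact_mod_cast indepNum_ge m
    have hm' : (9 : ℝ) ≤ m := by exact_mod_cast hm
    have h2 : randic (K m) = Real.sqrt (2 * m) := by
      rw [randic_eq, Real.div_sqrt]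
    rw [h2]
    push_cast
    have h3 : Real.sqrt ((m : ℝ) + 2 - 1) + 1 < Real.sqrt (2 * m) := by
      apply Real.lt_sqrt_of_sq_lt
      have h4 := Real.sq_sqrt (show (0 : ℝ) ≤ (m : ℝ) + 2 - 1 by linarith)
      have h5 : Real.sqrt ((m : ℝ) + 2 - 1) < (m - 2) / 2 := by
        rw [Real.sqrt_lt' (by linarith)]
        nlinarith
      nlinarith
    linarith

end Pool.Agent.Results.MP_e31007_co.CompleteBipartite
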